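import Pool.Agent.N796.FrechetMod

set_option autoImplicit false

open scoped PowerSeries.WithPiTopology

namespace Pool.Agent.Results.MP_5446c4_an.NoInjectives

open Pool.Agent.N796.FrechetMod

universe u

/-- There is a commutative (non-unital) Fréchet algebra over which no non-zero Fréchet module is
injective; and there is a non-zero unital commutative Fréchet algebra over which no non-zero unital Fréchet
module is injective among the unital Fréchet modules. -/
theorem result :
    (∃ (A : Type) (_ : NonUnitalCommRing A) (_ : Module ℂ A) (_ : IsScalarTower ℂ A A)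
      (_ : SMulCommClass ℂ A A) (_ : UniformSpace A),
      FrechetSpace A ∧ (Continuous fun p : A × A => p.1 * p.2) ∧
        ∀ X : FrechetModule.{u} A, Injective X → Subsingleton X.carrier) ∧
    (∃ (B : Type) (_ : CommRing B) (_ : Algebra ℂ B) (_ : UniformSpace B),
      Nontrivial B ∧ FrechetSpace B ∧ (Continuous fun p : B × B => p.1 * p.2) ∧
        ∀ X : FrechetModule.{u} B, IsUnital X → InjectiveIn IsUnital X →
          Subsingleton X.carrier) := by
  constructor
  · refine ⟨XSer, inferInstance, inferInstance, ⟨?_⟩, ⟨?_⟩, inferInstance, inferInstance, ?_,
      fun X hX => nonunital_case X hX⟩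
    · intro c a b
      show PowerSeries.X * (c • a.toPS) * b.toPS = c • (PowerSeries.X * a.toPS * b.toPS)
      simp [mul_assoc]
    · intro c a b
      show c • (PowerSeries.X * a.toPS * b.toPS) = PowerSeries.X * a.toPS * (c • b.toPS)
      simp
    · show Continuous fun p : PowerSeries ℂ × PowerSeries ℂ => PowerSeries.X * p.1 * p.2
      fun_prop
  · exact ⟨PowerSeries ℂ, inferInstance, inferInstance, inferInstance, inferInstance,
      inferInstance, continuous_mul, fun X hX hinj => unital_case X hX hinj⟩

end Pool.Agent.Results.MP_5446c4_an.NoInjectives
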